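import Pool.Agent.Helper230.IdxLang
import Pool.Agent.Y599.TS.Main
import Pool.Agent.Y599.TS.FG

set_option autoImplicit false

/-!
# Effective test sets for indexed languages, for all linear representations

All symbols are natural numbers. On right-hand sides and in sentential forms the constructor
`Sum.inl` marks nonterminals and `Sum.inr` marks terminals.
-/

namespace Pool.Agent.Results.MP_8ee1cf_lc.LinearTestSets

/-- An indexed grammar `(S, P₁, P₂, P₃)`: the start symbol `S`, the rules `A → α` listed as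
pairs `(A, α)` in `P₁`, the rules `A → B f` listed as triples `(A, B, f)` in `P₂`, and the rules
`A f → α` listed as triples `(A, f, α)` in `P₃`. In a right-hand side `α` the letter `inl B` is
the nonterminal `B` and the letter `inr a` is the terminal `a`. -/
abbrev Grammar : Type :=
  ℕ × List (ℕ × List (ℕ ⊕ ℕ)) × List (ℕ × ℕ × ℕ) × List (ℕ × ℕ × List (ℕ ⊕ ℕ))

/-- A sentential form: a word whose letters are `inl (A, σ)`, the nonterminal `A` carrying the
index stack `σ` (top first), and `inr a`, the terminal `a`. -/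
abbrev Form : Type := List ((ℕ × List ℕ) ⊕ ℕ)

/-- The word `α` with every nonterminal carrying the stack `σ`. -/
def carry (σ : List ℕ) (α : List (ℕ ⊕ ℕ)) : Form :=
  α.map (Sum.map (fun B => (B, σ)) id)

/-- `Rewrites G A σ x`: one rule of `G` turns `A[σ]` into `x`. -/
def Rewrites (G : Grammar) (A : ℕ) (σ : List ℕ) (x : Form) : Prop :=
  (∃ α, (A, α) ∈ G.2.1 ∧ x = carry σ α) ∨
  (∃ B f, (A, B, f) ∈ G.2.2.1 ∧ x = [Sum.inl (B, f :: σ)]) ∨
  (∃ f τ α, σ = f :: τ ∧ (A, f, α) ∈ G.2.2.2 ∧ x = carry τ α)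

/-- One derivation step: one nonterminal occurrence is rewritten. -/
def Produces (G : Grammar) (u v : Form) : Prop :=
  ∃ (p s : Form) (A : ℕ) (σ : List ℕ) (x : Form),
    u = p ++ Sum.inl (A, σ) :: s ∧ Rewrites G A σ x ∧ v = p ++ x ++ s

/-- The language of `G`: terminal words derivable from the start symbol with empty stack. -/
def language (G : Grammar) : Set (List ℕ) :=
  {w | Relation.ReflTransGen (Produces G) [Sum.inl (G.1, [])] (w.map Sum.inr)}

/-- The finite list `F` of words is a test set for the language `L`: its words lie in `L`, and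
for every alphabet `Δ`, two monoid homomorphisms `g, h` into `Δ*` agree on all of `L` iff they
agree on the words of `F`. -/
def IsTestSet (L : Set (List ℕ)) (F : List (List ℕ)) : Prop :=
  (∀ w ∈ F, w ∈ L) ∧
  ∀ (Δ : Type) (g h : FreeMonoid ℕ →* FreeMonoid Δ),
    (∀ w ∈ L, g (FreeMonoid.ofList w) = h (FreeMonoid.ofList w)) ↔
      (∀ w ∈ F, g (FreeMonoid.ofList w) = h (FreeMonoid.ofList w))

/-- The finite list `F` of words is a test set for `L` and the monoid homomorphisms into the
multiplicative monoid of `d × d` matrices over an arbitrary field, in the following strong form: for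
all homomorphisms `g, h` into `d × d` matrices and all words `w` of `L`, the pair `(g(w), h(w))` is a
linear combination of the pairs `(g(u), h(u))` with `u` in `F`. -/
def SpansLinear (d : ℕ) (L : Set (List ℕ)) (F : List (List ℕ)) : Prop :=
  ∀ (k : Type) [Field k] (g h : FreeMonoid ℕ →* Matrix (Fin d) (Fin d) k), ∀ w ∈ L,
    (g (FreeMonoid.ofList w), h (FreeMonoid.ofList w)) ∈
      Submodule.span k {p | ∃ u ∈ F, p = (g (FreeMonoid.ofList u), h (FreeMonoid.ofList u))}

/-- The finite list `F` of words is a test set for `L` and the homomorphisms into free groups (of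
any rank). -/
def IsFreeGroupTestSet (L : Set (List ℕ)) (F : List (List ℕ)) : Prop :=
  (∀ w ∈ F, w ∈ L) ∧
  ∀ (Δ : Type) (g h : FreeMonoid ℕ →* FreeGroup Δ),
    (∀ w ∈ L, g (FreeMonoid.ofList w) = h (FreeMonoid.ofList w)) ↔
      (∀ w ∈ F, g (FreeMonoid.ofList w) = h (FreeMonoid.ofList w))

/-- The finite list `F` of words is a test set for `L` and the homomorphisms into all monoids `N`
which are linear of degree `d` (isomorphic to a submonoid of the multiplicative monoid of `d × d`
matrices over some commutative ring `R` without nilpotent elements, for instance a field or a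
product of fields). -/
def IsLinearTestSet (d : ℕ) (L : Set (List ℕ)) (F : List (List ℕ)) : Prop :=
  (∀ w ∈ F, w ∈ L) ∧
  ∀ (N : Type) [Monoid N] (R : Type) [CommRing R] [IsReduced R]
    (ι : N →* Matrix (Fin d) (Fin d) R), Function.Injective ι → ∀ g h : FreeMonoid ℕ →* N,
    (∀ w ∈ L, g (FreeMonoid.ofList w) = h (FreeMonoid.ofList w)) ↔
      (∀ w ∈ F, g (FreeMonoid.ofList w) = h (FreeMonoid.ofList w))

theorem produces_eq (G : Grammar) :
    Produces G = Pool.Agent.Helper230.Step (Pool.Agent.Helper230.Ex G) := by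
  funext u v
  apply propext
  constructor
  · rintro ⟨p, s, A, σ, x, hu, hx, hv⟩
    exact ⟨p, s, (A, σ), x, hu, hx, hv⟩
  · rintro ⟨p, s, ⟨A, σ⟩, x, hu, hx, hv⟩
    exact ⟨p, s, A, σ, x, hu, hx, hv⟩

theorem language_eq (G : Grammar) : language G = Pool.Agent.Helper230.Lang G := by
  ext w
  change Relation.ReflTransGen (Produces G) _ _ ↔
    Pool.Agent.Helper230.Der (Pool.Agent.Helper230.Ex G) _ _
  rw [produces_eq]
  exact Pool.Agent.Helper230.rtg_iff_Der _ _

theorem produces_eq' (G : Grammar) :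
    Produces G = Pool.Agent.Y599.TS.Step (Pool.Agent.Y599.TS.Ex G) := by
  funext u v
  apply propext
  constructor
  · rintro ⟨p, s, A, σ, x, hu, hx, hv⟩
    exact ⟨p, s, (A, σ), x, hu, hx, hv⟩
  · rintro ⟨p, s, ⟨A, σ⟩, x, hu, hx, hv⟩
    exact ⟨p, s, A, σ, x, hu, hx, hv⟩

theorem language_eq' (G : Grammar) : language G = Pool.Agent.Y599.TS.Lang G := by
  ext w
  change Relation.ReflTransGen (Produces G) _ _ ↔
    Pool.Agent.Y599.TS.Der (Pool.Agent.Y599.TS.Ex G) _ _
  rw [produces_eq']
  letI := Pool.Agent.Y599.TS.dim 0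
  exact Pool.Agent.Y599.TS.rtg_iff_Der _ _

open Pool.Agent.Y599.TS in
/-- certificates in dimension `2 d` give the linear property in degree `d` -/
theorem spans_of_cert (d : ℕ) (G : Grammar) (F : List (List ℕ)) (C : Cert)
    (hV : @ValidC (dim (d + d)) G C) (hF : KC C G.1 none = F.map (fun w => w.map Sum.inr)) :
    SpansLinear d (language G) F := by
  intro k _ g h w hw
  rw [language_eq'] at hw
  have h1 := @span_sound (dim (d + d)) G (KC C) hV F hF k _ (sumHom g h) w hw
  have h2 := Submodule.mem_map_of_mem (f := diagBlk k d d) h1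
  rw [Submodule.map_span] at h2
  have h3 : ∀ u : List ℕ, diagBlk k d d (sumHom g h (FreeMonoid.ofList u)) =
      (g (FreeMonoid.ofList u), h (FreeMonoid.ofList u)) := fun u => diagBlk_blk d d _ _
  rw [h3] at h2
  refine (Submodule.span_mono ?_) h2
  rintro _ ⟨M, ⟨u, hu, rfl⟩, rfl⟩
  exact ⟨u, hu, h3 u⟩

/-- agreement on `F` implies agreement on `L` -/
theorem agree_of_spans {d : ℕ} {L : Set (List ℕ)} {F : List (List ℕ)} (hS : SpansLinear d L F)
    {k : Type} [Field k] (g h : FreeMonoid ℕ →* Matrix (Fin d) (Fin d) k)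
    (hgh : ∀ w ∈ F, g (FreeMonoid.ofList w) = h (FreeMonoid.ofList w)) :
    ∀ w ∈ L, g (FreeMonoid.ofList w) = h (FreeMonoid.ofList w) := by
  intro w hw
  let φ : Matrix (Fin d) (Fin d) k × Matrix (Fin d) (Fin d) k →ₗ[k] Matrix (Fin d) (Fin d) k :=
    LinearMap.fst k _ _ - LinearMap.snd k _ _
  have hle : Submodule.span k {p | ∃ u ∈ F, p = (g (FreeMonoid.ofList u), h (FreeMonoid.ofList u))} ≤
      LinearMap.ker φ := by
    rw [Submodule.span_le]
    rintro _ ⟨u, hu, rfl⟩
    rw [SetLike.mem_coe, LinearMap.mem_ker]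
    simp only [φ, LinearMap.sub_apply, LinearMap.fst_apply, LinearMap.snd_apply]
    rw [hgh u hu, sub_self]
  have h1 := hle (hS k g h w hw)
  rw [LinearMap.mem_ker] at h1
  simp only [φ, LinearMap.sub_apply, LinearMap.fst_apply, LinearMap.snd_apply] at h1
  exact sub_eq_zero.1 h1

/-- the same over commutative rings without nilpotent elements -/
theorem agree_of_reduced {d : ℕ} {L : Set (List ℕ)} {F : List (List ℕ)} (hS : SpansLinear d L F)
    {R : Type} [CommRing R] [IsReduced R] (g h : FreeMonoid ℕ →* Matrix (Fin d) (Fin d) R)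
    (hgh : ∀ w ∈ F, g (FreeMonoid.ofList w) = h (FreeMonoid.ofList w)) :
    ∀ w ∈ L, g (FreeMonoid.ofList w) = h (FreeMonoid.ofList w) := by
  intro w hw
  ext i j
  rw [← sub_eq_zero]
  refine IsNilpotent.eq_zero ?_
  rw [← mem_nilradical, nilradical_eq_sInf]
  refine Submodule.mem_sInf.2 fun (p : Ideal R) (hp : p.IsPrime) => ?_
  let φ : R →+* FractionRing (R ⧸ p) :=
    (algebraMap (R ⧸ p) (FractionRing (R ⧸ p))).comp (Ideal.Quotient.mk p)
  let ψ : Matrix (Fin d) (Fin d) R →* Matrix (Fin d) (Fin d) (FractionRing (R ⧸ p)) :=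
    (RingHom.mapMatrix φ).toMonoidHom
  have h0 : ∀ u ∈ F, (ψ.comp g) (FreeMonoid.ofList u) = (ψ.comp h) (FreeMonoid.ofList u) :=
    fun u hu => congrArg ψ (hgh u hu)
  have h1 := agree_of_spans hS (ψ.comp g) (ψ.comp h) h0 w hw
  have h2 : φ (g (FreeMonoid.ofList w) i j) = φ (h (FreeMonoid.ofList w) i j) :=
    congrFun (congrFun h1 i) j
  have h3 : Ideal.Quotient.mk p (g (FreeMonoid.ofList w) i j) =
      Ideal.Quotient.mk p (h (FreeMonoid.ofList w) i j) :=
    IsFractionRing.injective (R ⧸ p) (FractionRing (R ⧸ p)) h2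
  exact Ideal.Quotient.eq.1 h3

open Pool.Agent.Y599.TS Pool.Agent.Helper230 in
/-- the condition on the output of the algorithm -/
theorem s1_good : Pool.Agent.Helper230.S1 fun x : (ℕ × Grammar) × List (List ℕ) =>
    (∃ C : Pool.Agent.Y599.TS.Cert,
      @Pool.Agent.Y599.TS.ValidC (Pool.Agent.Y599.TS.dim (x.1.1 + x.1.1)) x.1.2 C ∧
      Pool.Agent.Y599.TS.KC C x.1.2.1 none = x.2.map (fun w => w.map Sum.inr)) ∧
      ∀ w ∈ x.2, w ∈ Pool.Agent.Helper230.Lang x.1.2 := by
  refine S1.and ?_ ?_
  · refine S1.exists (q := fun (x : (ℕ × Grammar) × List (List ℕ))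
      (C : Pool.Agent.Y599.TS.Cert) =>
      @Pool.Agent.Y599.TS.ValidC (Pool.Agent.Y599.TS.dim (x.1.1 + x.1.1)) x.1.2 C ∧
      Pool.Agent.Y599.TS.KC C x.1.2.1 none = x.2.map (fun w => w.map Sum.inr)) ?_
    have h0 : Primrec fun y : ((ℕ × Grammar) × List (List ℕ)) × Pool.Agent.Y599.TS.Cert =>
        (((y.1.1.1 + y.1.1.1, y.1.1.2), y.2, y.1.2) :
          (ℕ × Grammar) × Pool.Agent.Y599.TS.Cert × List (List ℕ)) :=
      Primrec.pair (Primrec.pair (Primrec.nat_add.comp
        (Primrec.fst.comp (Primrec.fst.comp Primrec.fst))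
        (Primrec.fst.comp (Primrec.fst.comp Primrec.fst)))
        (Primrec.snd.comp (Primrec.fst.comp Primrec.fst)))
        (Primrec.pair Primrec.snd (Primrec.snd.comp Primrec.fst))
    exact S1.comp (f := fun y : ((ℕ × Grammar) × List (List ℕ)) × Pool.Agent.Y599.TS.Cert =>
        (((y.1.1.1 + y.1.1.1, y.1.1.2), y.2, y.1.2) :
          (ℕ × Grammar) × Pool.Agent.Y599.TS.Cert × List (List ℕ)))
      Pool.Agent.Y599.TS.s1_certF h0
  · refine S1.forall_mem' (f := fun x : (ℕ × Grammar) × List (List ℕ) => x.2)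
      (q := fun x w => w ∈ Pool.Agent.Helper230.Lang x.1.2) Primrec.snd ?_
    exact S1.comp (f := fun y : ((ℕ × Grammar) × List (List ℕ)) × List ℕ => (y.1.1.2, y.2))
      s1_Lang (Primrec.pair (Primrec.snd.comp (Primrec.fst.comp Primrec.fst)) Primrec.snd)

/-- There is an algorithm that, given any `d ≥ 2` and any indexed grammar, outputs a test set for its
language, which is moreover a test set for all homomorphisms into free groups and into monoids that
are linear of degree `d`, and even has the spanning property `SpansLinear d`. -/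
theorem result :
    ∃ F : ℕ → Grammar → List (List ℕ), Computable₂ F ∧ ∀ d, 2 ≤ d → ∀ G : Grammar,
      IsTestSet (language G) (F d G) ∧ IsFreeGroupTestSet (language G) (F d G) ∧
      IsLinearTestSet d (language G) (F d G) ∧ SpansLinear d (language G) (F d G) := by
  obtain ⟨F, hF, hg⟩ := Pool.Agent.Helper230.computable_choice_of_S1
    (q := fun (x : ℕ × Grammar) (F : List (List ℕ)) =>
    (∃ C : Pool.Agent.Y599.TS.Cert,
      @Pool.Agent.Y599.TS.ValidC (Pool.Agent.Y599.TS.dim (x.1 + x.1)) x.2 C ∧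
      Pool.Agent.Y599.TS.KC C x.2.1 none = F.map (fun w => w.map Sum.inr)) ∧
      ∀ w ∈ F, w ∈ Pool.Agent.Helper230.Lang x.2) s1_good (fun x => by
    obtain ⟨C, F, hC, hF, hL⟩ := @Pool.Agent.Y599.TS.exists_test
      (Pool.Agent.Y599.TS.dim (x.1 + x.1)) x.2
    refine ⟨F, ⟨C, hC, hF⟩, fun w hw => ?_⟩
    have := hL w hw
    rw [← language_eq'] at this
    rwa [← language_eq])
  refine ⟨fun d G => F (d, G), hF, fun d hd G => ?_⟩
  obtain ⟨⟨C, hC, hK⟩, hL⟩ := hg (d, G)
  have hsub : ∀ w ∈ F (d, G), w ∈ language G := fun w hw => by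
    rw [language_eq]
    exact hL w hw
  have hS : SpansLinear d (language G) (F (d, G)) := spans_of_cert d G _ C hC hK
  refine ⟨⟨hsub, fun Δ g h => ⟨fun H w hw => H w (hsub w hw), fun H w hw => ?_⟩⟩,
    ⟨hsub, fun Δ g h => ⟨fun H w hw => H w (hsub w hw), fun H w hw => ?_⟩⟩,
    ⟨hsub, fun N _ R _ _ ι hι g h => ⟨fun H w hw => H w (hsub w hw), fun H w hw => ?_⟩⟩, hS⟩
  · obtain ⟨e, rfl⟩ : ∃ e, d = 2 + e := ⟨d - 2, by omega⟩
    refine Pool.Agent.Y599.TS.eq_of_rep e _ _ fun r => ?_
    exact agree_of_spans hS (r.comp g) (r.comp h) (fun u hu => congrArg r (H u hu)) w hw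
  · obtain ⟨e, rfl⟩ : ∃ e, d = 2 + e := ⟨d - 2, by omega⟩
    refine Pool.Agent.Y599.TS.eq_of_rep_free e _ _ fun r => ?_
    exact agree_of_spans hS (r.comp g) (r.comp h) (fun u hu => congrArg r (H u hu)) w hw
  · refine hι ?_
    exact agree_of_reduced hS (ι.comp g) (ι.comp h) (fun u hu => congrArg ι (H u hu)) w hw

end Pool.Agent.Results.MP_8ee1cf_lc.LinearTestSets
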